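import Pool.Agent.PFD.StmtsD5b
import Pool.Agent.Helper28_AT3.REC
import Pool.Agent.Helper41_AT3.CHA

/-! Squad PFD, row CHR: the alternating sum of a quotient. -/

set_option autoImplicit false
set_option linter.unusedSectionVars false

open scoped BigOperators

noncomputable section

namespace Pool.Agent.PFD.H39

open Pool.Agent.Helper51_AWC Pool.Agent.Helper79_WRA Pool.Agent.PP Pool.Agent.PP.KF
open Pool.Agent.PP.K9 Pool.Agent.PP.K9.H97 Pool.Agent.PP.H75 Pool.Agent.PP.T3 Pool.Agent.PP.T2
open Pool.Agent.PP.T3.H41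

attribute [local instance] Ideal.Quotient.field

/-- CHR -/
theorem chr (hRQA : RqaStmt) : ChrStmt := by
  classical
  intro ℓ hℓ M _ hM G _ _ e he V hV A _ _ p hp hkV hkne hY
  have hF : GoodF ℓ (FF M) := H50.fld ℓ hℓ.out M hM
  have hfin : Fintype (Subgroup G) := Fintype.ofFinite _
  have hfinA : Fintype (Subgroup A) := Fintype.ofFinite _
  have hkp : IsPGroup ℓ p.ker := hV.pg.to_le hkV
  have hfmg := (K9.H69.fmg ℓ M hM G e he V hV).1
  have hf : IsIdem (push p e) := push_isIdem hp he.1
  rw [Pool.Agent.PP.T3.H28.rec_ ℓ (FF M) hF A (push p e) hf]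
  have hkW : ∀ g : G, p.ker ≤ conjS g V := by
    intro g x hx
    rw [mem_conjS]
    apply hkV
    have := (inferInstance : p.ker.Normal).conj_mem x hx g⁻¹
    rwa [inv_inv] at this
  have hcardk : Nat.card p.ker < Nat.card V := by
    refine lt_of_le_of_ne (Subgroup.card_le_of_le hkV) fun h => hkne ?_
    exact Subgroup.eq_of_le_of_card_ge hkV h.ge
  have hS : (Nat.card p.ker : ℤ) *
      (∑ᶠ (Q : Subgroup A) (_ : IsPGroup ℓ Q ∧ Q ≠ ⊥), (Nat.card Q : ℤ) * YQ ℓ (push p e) Q) =
      (Nat.card G : ℤ) * (lnum (Subgroup.normalizer (V : Set G)) e : ℤ) := by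
    rw [finsum_eq_sum_of_fintype]
    simp only [finsum_eq_if]
    rw [← Finset.sum_filter, Finset.mul_sum]
    have h0 : ∀ Q ∈ Finset.univ.filter (fun Q : Subgroup A => IsPGroup ℓ Q ∧ Q ≠ ⊥),
        (Nat.card p.ker : ℤ) * ((Nat.card Q : ℤ) * YQ ℓ (push p e) Q) =
        (fun W : Subgroup G => (Nat.card W : ℤ) * YQ ℓ e W) (Q.comap p) := by
      intro Q hQ
      obtain ⟨-, hQ1, -⟩ := Finset.mem_filter.1 hQ
      show _ = (Nat.card (Q.comap p) : ℤ) * YQ ℓ e (Q.comap p)
      rw [hRQA ℓ (FF M) hF G A p hp hkp e he.1 Q hQ1, card_comap hp Q]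
      push_cast
      ring
    rw [Finset.sum_congr rfl h0,
      ← Finset.sum_image (f := fun W : Subgroup G => (Nat.card W : ℤ) * YQ ℓ e W)
        (g := fun Q : Subgroup A => Q.comap p)
        (fun Q _ Q' _ h => Subgroup.comap_injective hp h)]
    have h1 : Finset.univ.filter (fun W : Subgroup G => K9.H35.CJ V W) ⊆
        (Finset.univ.filter (fun Q : Subgroup A => IsPGroup ℓ Q ∧ Q ≠ ⊥)).image
          (fun Q : Subgroup A => Q.comap p) := by
      intro W hW
      obtain ⟨-, g, rfl⟩ := Finset.mem_filter.1 hW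
      refine Finset.mem_image.2 ⟨(conjS g V).map p, Finset.mem_filter.2 ⟨Finset.mem_univ _, ?_, ?_⟩,
        Subgroup.comap_map_eq_self (hkW g)⟩
      · exact (hV.pg.map _).map _
      · intro h
        have h2 : conjS g V ≤ p.ker := by
          intro x hx
          rw [MonoidHom.mem_ker]
          have h3 : p x ∈ (conjS g V).map p := ⟨x, hx, rfl⟩
          rwa [h, Subgroup.mem_bot] at h3
        have h3 := Subgroup.card_le_of_le h2
        rw [card_conjS] at h3
        omega
    rw [← Finset.sum_subset h1]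
    · have h2 : ∀ W ∈ Finset.univ.filter (fun W : Subgroup G => K9.H35.CJ V W),
          (Nat.card W : ℤ) * YQ ℓ e W =
          (Nat.card (Subgroup.normalizer (V : Set G)) : ℤ) *
            lnum (Subgroup.normalizer (V : Set G)) e := by
        intro W hW
        obtain ⟨-, g, rfl⟩ := Finset.mem_filter.1 hW
        rw [term_max hF he.1 (Q := conjS g V) (hV.pg.map _)
          (fun R h3 h4 => (hV.mx R h3 h4).trans (card_conjS g V).ge)]
        rw [BN.H9.norm_conjS, card_conjS, K9.H35.lnum_conjS he.1.1]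
      rw [Finset.sum_congr rfl h2, Finset.sum_const, nsmul_eq_mul, ← mul_assoc,
        ← K9.H35.card_conj V]
      push_cast
      ring
    · intro W hW hW2
      obtain ⟨Q, hQ, rfl⟩ := Finset.mem_image.1 hW
      obtain ⟨-, hQp, hQb⟩ := Finset.mem_filter.1 hQ
      have hWp : IsPGroup ℓ (Q.comap p) := (isPGroup_comap_iff hp hkp Q).2 hQp
      have hWk : p.ker ≤ Q.comap p := by
        intro x hx
        rw [MonoidHom.mem_ker] at hx
        rw [Subgroup.mem_comap, hx]
        exact Q.one_mem
      have hWn : p.ker ≠ Q.comap p := by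
        intro h
        apply hQb
        apply Subgroup.comap_injective hp
        rw [← h, MonoidHom.comap_bot]
      by_cases hg : Gd e (Q.comap p)
      · obtain ⟨g, hg2⟩ := hfmg (Q.comap p) hWp hg
        have h3 : Nat.card (Q.comap p) < Nat.card V := by
          refine lt_of_le_of_ne (hV.mx (Q.comap p) hWp hg) ?_
          intro h4
          apply hW2
          refine Finset.mem_filter.2 ⟨Finset.mem_univ _, g, ?_⟩
          refine Subgroup.eq_of_le_of_card_ge hg2 ?_
          rw [card_conjS, h4]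
        show (Nat.card (Q.comap p) : ℤ) * YQ ℓ e (Q.comap p) = 0
        rw [hY (Q.comap p) hWp hWk hWn hg h3, mul_zero]
      · have h3 : (fun t : Subgroup.normalizer ((Q.comap p : Subgroup G) : Set G) =>
            br (Q.comap p) e t) = 0 := by
          funext t
          by_cases ht : (t : G) ∈ Subgroup.centralizer ((Q.comap p : Subgroup G) : Set G)
          · change br (Q.comap p) e t = 0
            rw [H66.br_of_mem ht]
            by_contra h4
            exact hg ⟨t, ht, h4⟩
          · exact H66.br_of_not_mem ht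
        have h4 : YQ ℓ e (Q.comap p) = 0 := by
          unfold YQ
          rw [h3, PP.H75.push_zero, H67.YY_zero hF]
        show (Nat.card (Q.comap p) : ℤ) * YQ ℓ e (Q.comap p) = 0
        rw [h4, mul_zero]
  have hGA : (Nat.card G : ℤ) = (Nat.card p.ker : ℤ) * (Nat.card A : ℤ) := by
    have h := card_comap hp (⊤ : Subgroup A)
    rw [Subgroup.comap_top, Subgroup.card_top, Subgroup.card_top] at h
    rw [h]
    push_cast
    ring
  have hk0 : (Nat.card p.ker : ℤ) ≠ 0 := by
    have : 0 < Nat.card p.ker := Nat.card_pos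
    exact_mod_cast this.ne'
  have hS2 : (∑ᶠ (Q : Subgroup A) (_ : IsPGroup ℓ Q ∧ Q ≠ ⊥),
      (Nat.card Q : ℤ) * YQ ℓ (push p e) Q) =
      (Nat.card A : ℤ) * (lnum (Subgroup.normalizer (V : Set G)) e : ℤ) := by
    apply mul_left_cancel₀ hk0
    rw [hS, hGA, mul_assoc]
  have hln : lnum (⊤ : Subgroup A) (push p e) = ln e := by
    rw [← lnum_comap H20.nls hF hp hkp, Subgroup.comap_top, K9.H35.lnum_top]
    rfl
  have h5 : lnum (Subgroup.normalizer (V : Set G)) e =
      ln (fun t : Subgroup.normalizer (V : Set G) => br V e t) := by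
    rw [(K9.H75.lbr ℓ (FF M) hF G e he.1 V (Subgroup.normalizer (V : Set G))
      hV.pg Subgroup.le_normalizer le_rfl).1]
    rfl
  rw [hS2, hln, h5]
  ring

end Pool.Agent.PFD.H39
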