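import Pool.Agent.PFD.StmtsD2

/-!
Squad PFD, row FRG: port of row FSL of helper86.
-/

namespace Pool.Agent.PFD.D2.H39

open Pool.Agent.PFC.B1 (BiM FS Sep)

/-- FRG -/
theorem frg : FrgStmt := by
  intro R F A' A J _ _ _ _ cd _ _ _ _ _ _ _ f c
  classical
  obtain ⟨lf, hlf⟩ : ∃ lf : F → R, ∀ x, cd.κ (lf x) = x :=
    ⟨Function.surjInv cd.surj, Function.surjInv_eq cd.surj⟩
  let e := Module.finBasis R A'
  have qs : ∀ (r : R) (x : A'),
      f.q (r • x) = cd.κ r • f.q x := by
    intro r x
    rw [Algebra.smul_def, map_mul, f.sc, ← Algebra.smul_def]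
  let lam' : A' →ₗ[R] R :=
    e.constr R (fun i => lf (c.lam (f.q (e i))))
  have hle : ∀ i, lam' (e i) = lf (c.lam (f.q (e i))) := fun i =>
    e.constr_basis R _ i
  have hl : ∀ x, cd.κ (lam' x) = c.lam (f.q x) := by
    intro x
    have h := e.sum_repr x
    have h1 : lam' x = ∑ i, e.repr x i • lam' (e i) := by
      conv_lhs => rw [← h]
      rw [map_sum]
      exact Finset.sum_congr rfl fun i _ => by rw [map_smul]
    have h2 : f.q x = ∑ i, cd.κ (e.repr x i) • f.q (e i) := by
      conv_lhs => rw [← h]
      rw [map_sum]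
      exact Finset.sum_congr rfl fun i _ => by rw [qs]
    rw [h1, h2, map_sum, map_sum]
    refine Finset.sum_congr rfl fun i _ => ?_
    rw [smul_eq_mul, map_mul, hle, hlf, map_smul, smul_eq_mul]
  let G : Matrix (Fin (Module.finrank R A'))
      (Fin (Module.finrank R A')) R :=
    Matrix.of fun i j => lam' (e i * e j)
  have hG : ∀ i j, G i j = lam' (e i * e j) := fun i j => rfl
  -- the Gram matrix of the special fibre
  have hinj : Function.Injective (G.map cd.κ).mulVec := by
    intro v w hvw
    have key : ∀ u : Fin (Module.finrank R A') → F,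
        (G.map cd.κ).mulVec u = 0 → u = 0 := by
      intro u hu
      have h1 : ∀ i, c.lam (f.q (e i) * ∑ j, u j • f.q (e j)) = 0 := by
        intro i
        have h2 := congrFun hu i
        rw [Finset.mul_sum, map_sum]
        rw [Matrix.mulVec, dotProduct, Pi.zero_apply] at h2
        rw [← h2]
        refine Finset.sum_congr rfl fun j _ => ?_
        rw [Matrix.map_apply, hG, hl, mul_smul_comm, map_smul, smul_eq_mul, mul_comm,
          f.q.map_mul]
      have h2 : ∀ a : A, c.lam (a * ∑ j, u j • f.q (e j)) = 0 := by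
        intro a
        obtain ⟨x, rfl⟩ := f.surj a
        have h := e.sum_repr x
        have h3 : f.q x = ∑ i, cd.κ (e.repr x i) • f.q (e i) := by
          conv_lhs => rw [← h]
          rw [map_sum]
          exact Finset.sum_congr rfl fun i _ => by rw [qs]
        rw [h3, Finset.sum_mul, map_sum]
        refine Finset.sum_eq_zero fun i _ => ?_
        rw [smul_mul_assoc, map_smul, h1, smul_zero]
      have h3 : ∑ j, u j • f.q (e j) = 0 := by
        have h4 := c.h1 (∑ j, u j • f.q (e j))
        rw [← h4]
        exact Finset.sum_eq_zero fun i _ => by rw [h2, zero_smul]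
      have h4 : f.q (∑ j, (lf (u j) : R) • e j) = 0 := by
        rw [map_sum, ← h3]
        refine Finset.sum_congr rfl fun j _ => ?_
        rw [qs, hlf]
      obtain ⟨y, hy⟩ := f.ker _ h4
      funext j
      have h5 := congrArg (fun z => e.repr z j) hy
      simp only [map_sum, map_smul] at h5
      have h6 : (∑ x, (lf (u x) : R) • e.repr (e x)) j =
          lf (u j) := by
        rw [Finsupp.finsetSum_apply, Finset.sum_eq_single j]
        · rw [Finsupp.smul_apply, e.repr_self, Finsupp.single_eq_same, smul_eq_mul, mul_one]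
        · intro x _ hx
          rw [Finsupp.smul_apply, e.repr_self, Finsupp.single_apply, if_neg hx, smul_zero]
        · intro hj; exact absurd (Finset.mem_univ j) hj
      rw [h6, Finsupp.smul_apply, smul_eq_mul] at h5
      have h7 := congrArg cd.κ h5
      rw [hlf, map_mul, (cd.ker cd.π).2 ⟨1, (mul_one _).symm⟩, zero_mul] at h7
      exact h7
    have h := key (v - w) (by rw [Matrix.mulVec_sub, hvw, sub_self])
    exact sub_eq_zero.mp h
  have hdet0 : IsUnit (G.map cd.κ).det := by
    rw [← Matrix.isUnit_iff_isUnit_det]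
    exact Matrix.mulVec_injective_iff_isUnit.mp hinj
  have hdet : IsUnit G.det := by
    apply cd.loc
    have h : cd.κ G.det = (G.map cd.κ).det :=
      RingHom.map_det _ _
    rw [h]; exact hdet0.ne_zero
  have hGH : G * G⁻¹ = 1 := Matrix.mul_nonsing_inv G hdet
  have hHG : G⁻¹ * G = 1 := Matrix.nonsing_inv_mul G hdet
  refine ⟨Fin (Module.finrank R A'), inferInstance,
    ⟨⟨lam', e, fun i => ∑ k, G⁻¹ i k • e k, ?_, ?_⟩⟩⟩
  · have hb : ∀ i j, lam' ((∑ k, G⁻¹ i k • e k) * e j) =
        (1 : Matrix _ _ R) i j := by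
      intro i j
      rw [← hHG, Matrix.mul_apply, Finset.sum_mul, map_sum]
      refine Finset.sum_congr rfl fun k _ => ?_
      rw [smul_mul_assoc, map_smul, smul_eq_mul, hG]
    intro x
    have h := e.sum_repr x
    have h1 : ∀ i, lam' ((∑ k, G⁻¹ i k • e k) * x) = e.repr x i := by
      intro i
      conv_lhs => rw [← h]
      rw [Finset.mul_sum, map_sum, Finset.sum_eq_single i]
      · rw [mul_smul_comm, map_smul, hb, Matrix.one_apply_eq, smul_eq_mul, mul_one]
      · intro j _ hj
        rw [mul_smul_comm, map_smul, hb, Matrix.one_apply_ne (Ne.symm hj), smul_zero]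
      · intro hi; exact absurd (Finset.mem_univ i) hi
    conv_rhs => rw [← h]
    exact Finset.sum_congr rfl fun i _ => by rw [h1]
  · intro x
    have h := e.sum_repr x
    have h1 : ∀ i, lam' (x * e i) = ∑ j, e.repr x j * G j i := by
      intro i
      conv_lhs => rw [← h]
      rw [Finset.sum_mul, map_sum]
      refine Finset.sum_congr rfl fun j _ => ?_
      rw [smul_mul_assoc, map_smul, smul_eq_mul, hG]
    have h2 : ∑ i, lam' (x * e i) • ∑ k, G⁻¹ i k • e k =
        ∑ k, (∑ j, e.repr x j * (G * G⁻¹) j k) • e k := by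
      simp_rw [h1, Finset.smul_sum, Matrix.mul_apply, smul_smul]
      rw [Finset.sum_comm]
      refine Finset.sum_congr rfl fun k _ => ?_
      rw [← Finset.sum_smul]
      congr 1
      simp_rw [Finset.sum_mul, Finset.mul_sum]
      rw [Finset.sum_comm]
      refine Finset.sum_congr rfl fun j _ => Finset.sum_congr rfl fun i _ => ?_
      rw [mul_assoc]
    rw [h2, hGH]
    conv_rhs => rw [← h]
    refine Finset.sum_congr rfl fun k _ => ?_
    congr 1
    rw [Finset.sum_eq_single k]
    · rw [Matrix.one_apply_eq, mul_one]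
    · intro j _ hj
      rw [Matrix.one_apply_ne hj, mul_zero]
    · intro hi; exact absurd (Finset.mem_univ k) hi

end Pool.Agent.PFD.D2.H39
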