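import Pool.Agent.PFD.StmtsD5b
import Pool.Agent.Helper28_AT3.REC

/-! Squad PFD, row RQA: the local alternating sums of a quotient. -/

set_option autoImplicit false
set_option linter.unusedSectionVars false

open scoped BigOperators

noncomputable section

namespace Pool.Agent.PFD.H39

open Pool.Agent.Helper51_AWC Pool.Agent.Helper79_WRA Pool.Agent.PP Pool.Agent.PP.KF
open Pool.Agent.PP.K9 Pool.Agent.PP.K9.H97 Pool.Agent.PP.H75 Pool.Agent.PP.T3 Pool.Agent.PP.T2
open Pool.Agent.PP.T3.H28

/-- RQA -/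
theorem rqa : RqaStmt := by
  intro ℓ hℓ F _ hF G A _ _ _ _ p hp hkp e he R' hR'
  have hR : IsPGroup ℓ (R'.comap p) := (isPGroup_comap_iff hp hkp R').2 hR'
  obtain ⟨R, hRe⟩ : ∃ R, R = R'.comap p := ⟨_, rfl⟩
  rw [← hRe] at hR ⊢
  have hN : ∀ x : G, x ∈ Subgroup.normalizer (R : Set G) ↔
      p x ∈ Subgroup.normalizer (R' : Set A) := by
    intro x
    rw [hRe]
    exact normalizer_comap hp R' x
  have hRm : ∀ x : G, x ∈ R ↔ p x ∈ R' := by
    intro x
    rw [hRe]
    exact Iff.rfl
  let q : Subgroup.normalizer (R : Set G) →* Subgroup.normalizer (R' : Set A) :=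
    (p.comp (Subgroup.normalizer (R : Set G)).subtype).codRestrict _ (fun x => (hN _).1 x.2)
  have hq : ∀ x : Subgroup.normalizer (R : Set G), ((q x : Subgroup.normalizer (R' : Set A)) : A) = p x :=
    fun x => rfl
  have hqs : Function.Surjective q := by
    intro y
    obtain ⟨x, hx⟩ := hp (y : A)
    exact ⟨⟨x, (hN x).2 (hx ▸ y.2)⟩, Subtype.ext hx⟩
  obtain ⟨π', hπ'⟩ : ∃ π', π' = QuotientGroup.mk'
    (R'.subgroupOf (Subgroup.normalizer (R' : Set A))) := ⟨_, rfl⟩
  have hπs : Function.Surjective π' := by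
    rw [hπ']
    exact QuotientGroup.mk'_surjective _
  have hπk : π'.ker = R'.subgroupOf (Subgroup.normalizer (R' : Set A)) := by
    rw [hπ']
    exact QuotientGroup.ker_mk' _
  obtain ⟨π, hπ⟩ : ∃ π, π = QuotientGroup.mk'
    (R.subgroupOf (Subgroup.normalizer (R : Set G))) := ⟨_, rfl⟩
  have hs : Function.Surjective π := by
    rw [hπ]
    exact QuotientGroup.mk'_surjective _
  have hk : π.ker = R.subgroupOf (Subgroup.normalizer (R : Set G)) := by
    rw [hπ]
    exact QuotientGroup.ker_mk' _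
  have hker : (π'.comp q).ker = R.subgroupOf (Subgroup.normalizer (R : Set G)) := by
    ext x
    rw [MonoidHom.mem_ker, MonoidHom.comp_apply, ← MonoidHom.mem_ker, hπk, Subgroup.mem_subgroupOf,
      Subgroup.mem_subgroupOf, hq]
    exact (hRm _).symm
  let φ : (Subgroup.normalizer (R : Set G) ⧸ R.subgroupOf (Subgroup.normalizer (R : Set G))) ≃*
      (Subgroup.normalizer (R' : Set A) ⧸ R'.subgroupOf (Subgroup.normalizer (R' : Set A))) :=
    (QuotientGroup.quotientMulEquivOfEq hker.symm).trans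
      (QuotientGroup.quotientKerEquivOfSurjective (π'.comp q) (hπs.comp hqs))
  have hφ : ∀ x : Subgroup.normalizer (R : Set G), φ (π x) = π' (q x) := by
    intro x
    rw [hπ]
    rfl
  have hpg : ∀ {H : Type} [Group H] [Finite H] {Q : Subgroup H} {B : Type} [Group B]
      {g : Subgroup.normalizer (Q : Set H) →* B}, IsPGroup ℓ Q →
      g.ker = Q.subgroupOf (Subgroup.normalizer (Q : Set H)) → IsPGroup ℓ g.ker := by
    intro H _ _ Q B _ g hQ hg
    have hc : Nat.card g.ker = Nat.card Q := by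
      rw [hg]
      exact Nat.card_congr (Subgroup.subgroupOfEquivOfLe Subgroup.le_normalizer).toEquiv
    obtain ⟨k, hk'⟩ := IsPGroup.iff_card.1 hQ
    exact IsPGroup.of_card (hc.trans hk')
  have h1 := YY_equiv ℓ φ ⊤ (push π' (fun t : Subgroup.normalizer (R' : Set A) => br R' (push p e) t))
  rw [Subgroup.map_top_of_surjective _ φ.surjective] at h1
  unfold YQ
  rw [← hπ', ← hπ, ← h1]
  unfold YY
  refine Finset.sum_congr rfl fun d _ => ?_
  refine congrArg (fun n : ℕ => (-1 : ℤ) ^ (d.card + 1) * ((Nat.card (stab d) : ℤ) * (n : ℤ))) ?_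
  -- the numbers
  have e1 : lnum (stab d) (push π (fun t : Subgroup.normalizer (R : Set G) => br R e t)) =
      lnum (up π (stab d)) e := by
    rw [← lnum_up hF hs (hpg hR hk) (stab d) (br R e)]
    exact ((H75.lbr ℓ F hF G e he R (up π (stab d)) hR (le_up hk _) (up_le π _)).1).symm
  have e2 : lnum ((stab d).map φ.toMonoidHom)
      (push π' (fun t : Subgroup.normalizer (R' : Set A) => br R' (push p e) t)) =
      lnum (up π' ((stab d).map φ.toMonoidHom)) (push p e) := by
    rw [← lnum_up hF hπs (hpg hR' hπk) _ (br R' (push p e))]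
    exact ((H75.lbr ℓ F hF A (push p e) (push_isIdem hp he) R' _ hR' (le_up hπk _)
      (up_le π' _)).1).symm
  have e3 : (up π' ((stab d).map φ.toMonoidHom)).comap p = up π (stab d) := by
    ext x
    rw [Subgroup.mem_comap, mem_up, mem_up]
    constructor
    · rintro ⟨h, hx⟩
      have hx' : x ∈ Subgroup.normalizer (R : Set G) := (hN x).2 h
      refine ⟨hx', ?_⟩
      obtain ⟨y, hy, hxy⟩ := hx
      have h2 : φ y = φ (π ⟨x, hx'⟩) := by
        rw [hφ]
        exact hxy
      rwa [← φ.injective h2]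
    · rintro ⟨h, hx⟩
      exact ⟨(hN x).1 h, ⟨_, hx, hφ ⟨x, h⟩⟩⟩
  have e4 := lnum_map φ.toMonoidHom φ.injective (stab d)
    (push π' (fun t : Subgroup.normalizer (R' : Set A) => br R' (push p e) t))
  rw [e1, ← e3, lnum_comap H20.nls hF hp hkp, ← e2, e4]
  rfl

end Pool.Agent.PFD.H39
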